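import Pool.Agent.TH561.AD.Exact
import Pool.Agent.TH561.AD.Comp

/-!
# A freely periodic knot with trivial Jones polynomial and its quotients

`Pool.Agent.TH561.PK.Defs` contains the definitions:

* `Elem M`: an elementary tangle on `M` vertical strands: a crossing of one of the two kinds between
  the places `i` and `i + 1`, or a hook (the two lower points at the places `i`, `i + 1` are joined by a
  cap, the two upper points by a cup);
* `annular w dir`: the closure in the annulus of the tangle `w 0, w 1, …, w (L-1)` (one above the
  other); its marked points are the points `(t, j)` (level `t ∈ ℤ/L`, place `j`);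
* `Oriented w dir`: `dir` is an orientation of the curves of this diagram (`dir (t, j) = true`: upwards);
* `IsKnot D`: all marked points are on one curve.

`freeWord n w a` (in `Pool.Agent.TH561.FP.Defs`) is the word `w` repeated `n` times, followed by `a`
full twists on all `M` strands, that is by the word `(σ_0 σ_1 ⋯ σ_{M-2})^M` repeated `|a|` times, with
crossings of the kind given by the sign of `a`.  So `annular (freeWord n w a) dir` is a knot with a
symmetry of order `n` (a free one if `a` is prime to `n`), and `annular (freeWord 1 w b) dir'` is the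
quotient by a rotation (`b = 0`), or is obtained from it by `b` full twists along a disc which the
axis bounds (`-1/b`-surgery on the axis).

`Diagram.IsClosed` and `Diagram.fPoly` (the normalised Kauffman bracket) are in
`Pool.Agent.H891R2.Jones.Diagram`.
-/

set_option autoImplicit false

namespace Pool.Agent.Results.MP_7bc610_gt.AnnularDescent

open Pool.Agent.H891R2.Jones Pool.Agent.TH561.PK Pool.Agent.TH561.FP Pool.Agent.TH561.AD

/-- Let `D` be a knot diagram which is the closure in the annulus of `w ^ q` followed by `a` full
twists on all `M` strands, where `q = p ^ k` is a power of an odd prime `p` with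
`2 q > M (|a| M + 1)`.  For an integer `b` let `K_b` be the closure of `w` followed by `b` full twists.
Then `K_b` is a knot, and if `f_D ≡ 1` modulo `p` then `f_{K_b} ≡ 1` modulo `p` for all `b`.  If `l` is
the number of the letters of `w`, `p > 2 ^ (M + 2 l) + 1` and `f_D = 1`, then `f_{K_b} = 1` for
all `b`. -/
theorem result (M l : ℕ) (hl : 0 < l) (w : Fin l → Elem M) (a : ℤ) (p k : ℕ) (hp : p.Prime)
    (hp2 : p ≠ 2) (hk : 1 ≤ k) (hq : M * (a.natAbs * M + 1) < 2 * p ^ k)
    (dir : Fin (p ^ k * l + a.natAbs * (M * (M - 1))) × Fin M → Bool)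
    (ho : Oriented (freeWord (p ^ k) w a) dir) (hK : IsKnot (annular (freeWord (p ^ k) w a) dir)) :
    (annular (freeWord (p ^ k) w a) dir).IsClosed ∧
    ∀ (b : ℤ) (dir' : Fin (1 * l + b.natAbs * (M * (M - 1))) × Fin M → Bool),
      Oriented (freeWord 1 w b) dir' →
      (annular (freeWord 1 w b) dir').IsClosed ∧ IsKnot (annular (freeWord 1 w b) dir') ∧
      ((∀ n, (p : ℤ) ∣ ((annular (freeWord (p ^ k) w a) dir).fPoly - 1).coeff n) →
        ∀ n, (p : ℤ) ∣ ((annular (freeWord 1 w b) dir').fPoly - 1).coeff n) ∧
      (2 ^ (M + 2 * l) + 1 < p → (annular (freeWord (p ^ k) w a) dir).fPoly = 1 →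
        (annular (freeWord 1 w b) dir').fPoly = 1) := by
  have hM : 0 < M := by
    have := (w ⟨0, hl⟩).2.2
    omega
  have : Fact p.Prime := ⟨hp⟩
  refine ⟨annular_closed _ dir ho, fun b dir' ho' => ⟨annular_closed _ dir' ho',
    quot_isKnot hl (p ^ k) (Nat.pow_pos hp.pos) w a dir hK ho b dir' ho', fun hf => ?_, fun hb hf => ?_⟩⟩
  · rw [← red_eq_one] at hf
    rw [← red_eq_one]
    exact unit_modp p k hk hp2 hl hM w a hq dir ho hK hf b dir' ho'
  · exact unit_exact p k hk hp2 hl hM w a hq hb dir ho hK hf b dir' ho'

end Pool.Agent.Results.MP_7bc610_gt.AnnularDescent
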