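import Pool.Agent.TH561.VC.Thm

/-!
# The Jones polynomials of cyclic covers of (virtual) link diagrams

`Diagram`, `Diagram.IsClosed` and `Diagram.fPoly` (the normalised Kauffman bracket) are defined in
`Pool.Agent.H891R2.Jones.Diagram`; no planarity is assumed, so a `Diagram` is a virtual link diagram
(a diagram of a link in a thickened oriented surface).  `IsKnot D` (`Pool.Agent.TH561.PK.Defs`): all
marked points are on one curve.

`cover q D v` (`Pool.Agent.TH561.VC.Defs`) is the cyclic cover of degree `q` of the diagram `D` with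
voltages `v` (an integer for every arc): its marked points are the pairs of a marked point and a sheet
`j ∈ ℤ/q`, every crossing is lifted to each sheet, and an arc from `x` to `y` with voltage `v` is lifted
to the `q` arcs from `(x, j)` to `(y, j + v)`.
-/

set_option autoImplicit false

namespace Pool.Agent.Results.MP_7bc610_gt.CyclicCovers

open Pool.Agent.H891R2.Jones Pool.Agent.TH561.VC

/-- Let `D` be a virtual link diagram with `c` crossings and marked points `P`, and let `v` be integral
voltages on its arcs with sum of absolute values less than the odd prime `p`.  Let `D_q` be the cyclic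
cover of degree `q`.  If for one `q = p ^ k`, `k ≥ 1`, all coefficients of `f_{D_q}` at the exponents
`n` with `|n| ≥ 2 q - 2` are divisible by `p` then

* `f_{D_{q'}} ≡ f_D` modulo `p` for all `q' = p ^ k'`, `k' ≥ 1`;
* if `p > 2 ^ (c + |P|)` then `f_{D_{q'}} ≡ f_D` modulo `p'` for all powers `q' = p' ^ k'`, `k' ≥ 1`, of
  odd primes `p'` larger than the sum of the absolute values of the voltages;
* if `p > 2 ^ (c + |P|) + B` and all coefficients of `f_{D_q}` are at most `B` in absolute value then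
  `f_{D_q} = f_D`.

In particular `f_{D_q} ≡ 1` modulo `p` implies `f_D ≡ 1` modulo `p`, and `f_{D_q} = 1` implies
`f_D = 1` if `p > 2 ^ (c + |P|) + 1`. -/
theorem result {P : Type} [Fintype P] [DecidableEq P] [Nonempty P] (D : Diagram P)
    (v : Fin D.arcs.length → ℤ) (p k : ℕ) (hp : p.Prime) (hp2 : p ≠ 2) (hk : 1 ≤ k)
    (hv : ∑ e, (v e).natAbs < p) :
    (D.IsClosed → (cover (p ^ k) D v).IsClosed) ∧
    (Pool.Agent.TH561.PK.IsKnot (cover (p ^ k) D v) → Pool.Agent.TH561.PK.IsKnot D) ∧
    ((∀ n : ℤ, 2 * ((p ^ k : ℕ) : ℤ) - 2 ≤ |n| → (p : ℤ) ∣ (cover (p ^ k) D v).fPoly.coeff n) →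
      (∀ k' : ℕ, 1 ≤ k' → ∀ n, (p : ℤ) ∣ ((cover (p ^ k') D v).fPoly - D.fPoly).coeff n) ∧
      (2 ^ (D.crossings.length + Fintype.card P) < p →
        ∀ p' k' : ℕ, p'.Prime → p' ≠ 2 → 1 ≤ k' → ∑ e, (v e).natAbs < p' →
          ∀ n, (p' : ℤ) ∣ ((cover (p' ^ k') D v).fPoly - D.fPoly).coeff n) ∧
      (∀ B : ℕ, 2 ^ (D.crossings.length + Fintype.card P) + B < p →
        (∀ n, |(cover (p ^ k) D v).fPoly.coeff n| ≤ B) → (cover (p ^ k) D v).fPoly = D.fPoly)) ∧
    ((∀ n, (p : ℤ) ∣ ((cover (p ^ k) D v).fPoly - 1).coeff n) → ∀ n, (p : ℤ) ∣ (D.fPoly - 1).coeff n) ∧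
    (2 ^ (D.crossings.length + Fintype.card P) + 1 < p → (cover (p ^ k) D v).fPoly = 1 → D.fPoly = 1) :=
  cover_theorem D v p k hp hp2 hk hv

end Pool.Agent.Results.MP_7bc610_gt.CyclicCovers
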