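import Pool.Agent.TH561.VC.GMain

/-!
# The Jones polynomials of regular covers of (virtual) link diagrams with deck group a `p`-group

`Diagram`, `Diagram.IsClosed` and `Diagram.fPoly` (the normalised Kauffman bracket) are defined in
`Pool.Agent.H891R2.Jones.Diagram`; no planarity is assumed, so a `Diagram` is a virtual link diagram
(a diagram of a link in a thickened oriented surface).  `IsKnot D` (`Pool.Agent.TH561.PK.Defs`): all
marked points are on one curve.

`regCover s D φ` (`Pool.Agent.TH561.VC.GDefs`) is the regular cover of the diagram `D` with voltages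
`φ` in the finite group `G` (an element of `G` for every arc; `s` is an enumeration of `G`): its marked
points are the pairs of a marked point and an element of `G`, every crossing is lifted to each sheet
`g ∈ G`, and an arc from `x` to `y` with voltage `h` is lifted to the arcs from `(x, g)` to `(y, g * h)`.
So these are the diagrams with a free action of `G`, and `D` is the quotient diagram.
-/

set_option autoImplicit false

namespace Pool.Agent.Results.MP_7bc610_gt.PGroupCovers

open Pool.Agent.H891R2.Jones Pool.Agent.TH561.VC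

/-- Let `D` be a virtual link diagram with `c` crossings and marked points `P`, let `G` be a group of
order `q = p ^ k`, `k ≥ 1`, `p` an odd prime, and let `D_G` be the cover of `D` with voltages `φ` in `G`.

* If fewer than `p` arcs have a nontrivial voltage and `p` divides all coefficients of `f_{D_G}` at the
  exponents `n` with `|n| ≥ 2 p - 2` then `f_{D_G} ≡ f_D` modulo `p`; in particular `f_{D_G} ≡ 1` modulo
  `p` implies `f_D ≡ 1` modulo `p`.
* If `D` is closed, `p > 2 ^ (c + |P|) + B`, `p` divides all coefficients of `f_{D_G}` at the exponents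
  `n` with `|n| ≥ 2 p - 2`, and all coefficients are at most `B` in absolute value, then `f_{D_G} = f_D`
  (for all voltages).
* In particular, if `D` is closed and `p > 2 ^ (c + |P|) + 1` then `f_{D_G} = 1` implies `f_D = 1`. -/
theorem result {P G : Type} [Fintype P] [DecidableEq P] [Nonempty P] [Group G] [DecidableEq G]
    {q : ℕ} (s : Fin q ≃ G) (D : Diagram P) (φ : Fin D.arcs.length → G)
    (p k : ℕ) (hp : p.Prime) (hp2 : p ≠ 2) (hk : 1 ≤ k) (hq : q = p ^ k) :
    (D.IsClosed → (regCover s D φ).IsClosed) ∧
    (Pool.Agent.TH561.PK.IsKnot (regCover s D φ) → Pool.Agent.TH561.PK.IsKnot D) ∧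
    (Nat.card {e // φ e ≠ 1} < p →
      ((∀ n : ℤ, 2 * (p : ℤ) - 2 ≤ |n| → (p : ℤ) ∣ (regCover s D φ).fPoly.coeff n) →
        ∀ n, (p : ℤ) ∣ ((regCover s D φ).fPoly - D.fPoly).coeff n) ∧
      ((∀ n, (p : ℤ) ∣ ((regCover s D φ).fPoly - 1).coeff n) →
        ∀ n, (p : ℤ) ∣ (D.fPoly - 1).coeff n)) ∧
    (D.IsClosed → ∀ B : ℕ, 2 ^ (D.crossings.length + Fintype.card P) + B < p →
      (∀ n : ℤ, 2 * (p : ℤ) - 2 ≤ |n| → (p : ℤ) ∣ (regCover s D φ).fPoly.coeff n) →
      (∀ n, |(regCover s D φ).fPoly.coeff n| ≤ B) → (regCover s D φ).fPoly = D.fPoly) ∧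
    (D.IsClosed → 2 ^ (D.crossings.length + Fintype.card P) + 1 < p →
      (regCover s D φ).fPoly = 1 → D.fPoly = 1) :=
  regCover_theorem s D φ p k hp hp2 hk hq

end Pool.Agent.Results.MP_7bc610_gt.PGroupCovers
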