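import Pool.Agent.TH561.AD.SpanOdd
import Pool.Agent.TH561.AD.Comp

/-!
# Freely periodic knots whose Jones polynomial has a small span

`Pool.Agent.TH561.PK.Defs` contains the definitions:

* `Elem M`: an elementary tangle on `M` vertical strands: a crossing of one of the two kinds between
  the places `i` and `i + 1`, or a hook (the two lower points at the places `i`, `i + 1` are joined by a
  cap, the two upper points by a cup);
* `annular w dir`: the closure in the annulus of the tangle `w 0, w 1, …, w (L-1)` (one above the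
  other); its marked points are the points `(t, j)` (level `t ∈ ℤ/L`, place `j`);
* `Oriented w dir`: `dir` is an orientation of the curves of this diagram (`dir (t, j) = true`: upwards);
* `IsKnot D`: all marked points are on one curve;
* `linking dir t`: the number of the upward minus the number of the downward strands at the level `t`,
  that is the linking number with the axis (the winding number in the solid torus).

`freeWord n w a` (in `Pool.Agent.TH561.FP.Defs`) is the word `w` repeated `n` times, followed by `a`
full twists on all `M` strands, that is by the word `(σ_0 σ_1 ⋯ σ_{M-2})^M` repeated `|a|` times, with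
crossings of the kind given by the sign of `a`.  So `annular (freeWord n w a) dir` is a knot with a
symmetry of order `n` (a free one if `a` is prime to `n`), and `annular (freeWord 1 w b) dir'` is the
quotient by a rotation (`b = 0`), or is obtained from it by `b` full twists along a disc which the
axis bounds (`-1/b`-surgery on the axis).

`PN R N b` (in `Pool.Agent.TH561.AD.SpanM`) is the Laurent polynomial
`A^{-2bN(N-1)} (A^{2N+2} - A^{-2N-2}) - A^{-2bN(N+1)} (A^{2N-2} - A^{2-2N})` with coefficients in `R`
(here `A` is the variable `T 1`); it is `A^4 - A^{-4}` for `N = 1`.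

`Diagram.IsClosed` and `Diagram.fPoly` (the normalised Kauffman bracket) are in
`Pool.Agent.H891R2.Jones.Diagram`.
-/

set_option autoImplicit false

namespace Pool.Agent.Results.MP_7bc610_gt.SpanGap

open Pool.Agent.H891R2.Jones Pool.Agent.TH561.PK Pool.Agent.TH561.FP Pool.Agent.TH561.AD
  LaurentPolynomial

/-- Let `D` be a knot diagram which is the closure in the annulus of `w ^ q` followed by `a` full
twists on all `M` strands, where `q = p ^ k` is a power of an odd prime `p` with
`2 q > M (|a| M + 1)`, and let `N` be the absolute value of its linking number with the axis.  Assume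
that all exponents of `f_D` modulo `p` are in an interval `[x, y]` with
`y - x + 4 + |a| M (M + 2) < 4 q`.  Then `N` is odd (so this never happens if `M` is even), and there are
a sign `ε` and an integer `e` such that
`(A^4 - A^{-4}) f_D ≡ ε A^{qe} P_{N,a}` modulo `p`, and `(A^4 - A^{-4}) f_{K_b} ≡ ε A^e P_{N,b}` modulo
`p` for all integers `b`, where `K_b` is the closure of `w` followed by `b` full twists.  If `l` is the
number of the letters of `w` and `p > 2 ^ (M + 2 l) + 1`, then
`(A^4 - A^{-4}) f_{K_b} = ε A^e P_{N,b}` for all `b`. -/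
theorem result (M l : ℕ) (hl : 0 < l) (w : Fin l → Elem M) (a : ℤ) (p k : ℕ) (hp : p.Prime)
    (hp2 : p ≠ 2) (hq : M * (a.natAbs * M + 1) < 2 * p ^ k)
    (dir : Fin (p ^ k * l + a.natAbs * (M * (M - 1))) × Fin M → Bool)
    (ho : Oriented (freeWord (p ^ k) w a) dir) (hK : IsKnot (annular (freeWord (p ^ k) w a) dir))
    (x y : ℤ) (hxy : y - x + 4 + a.natAbs * (M * (M + 2)) < 4 * p ^ k)
    (hf : ∀ n, ¬ (p : ℤ) ∣ (annular (freeWord (p ^ k) w a) dir).fPoly.coeff n → x ≤ n ∧ n ≤ y)
    (h0 : 0 < p ^ k * l + a.natAbs * (M * (M - 1))) :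
    (annular (freeWord (p ^ k) w a) dir).IsClosed ∧ Odd (linking dir ⟨0, h0⟩) ∧
    ∃ ε e : ℤ, (ε = 1 ∨ ε = -1) ∧
      (∀ n, (p : ℤ) ∣ ((T 4 - T (-4)) * (annular (freeWord (p ^ k) w a) dir).fPoly -
        C ε * T (p ^ k * e) * PN ℤ (linking dir ⟨0, h0⟩).natAbs a).coeff n) ∧
      ∀ (b : ℤ) (dir' : Fin (1 * l + b.natAbs * (M * (M - 1))) × Fin M → Bool),
        Oriented (freeWord 1 w b) dir' →
        (annular (freeWord 1 w b) dir').IsClosed ∧ IsKnot (annular (freeWord 1 w b) dir') ∧
        (∀ n, (p : ℤ) ∣ ((T 4 - T (-4)) * (annular (freeWord 1 w b) dir').fPoly -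
          C ε * T e * PN ℤ (linking dir ⟨0, h0⟩).natAbs b).coeff n) ∧
        (2 ^ (M + 2 * l) + 1 < p → (T 4 - T (-4)) * (annular (freeWord 1 w b) dir').fPoly =
          C ε * T e * PN ℤ (linking dir ⟨0, h0⟩).natAbs b) := by
  have hM : 0 < M := by
    have := (w ⟨0, hl⟩).2.2
    omega
  have : Fact p.Prime := ⟨hp⟩
  have hpos : 0 < p ^ k := Nat.pow_pos hp.pos
  have hred : ∀ c, (TH561.red p (annular (freeWord (p ^ k) w a) dir).fPoly).coeff c ≠ 0 →
      x ≤ c ∧ c ≤ y := by
    intro c hc
    apply hf
    intro hdvd
    apply hc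
    have h3 : (TH561.red p (annular (freeWord (p ^ k) w a) dir).fPoly).coeff c =
        (((annular (freeWord (p ^ k) w a) dir).fPoly.coeff c : ℤ) : ZMod p) := by
      unfold TH561.red
      rw [AddMonoidAlgebra.coeff_mapRingHom]
      rfl
    rw [h3]
    exact (ZMod.intCast_zmod_eq_zero_iff_dvd _ p).2 hdvd
  obtain ⟨ε, e, hε, h1, h2⟩ := span_final p k hp2 hl hM w a hq dir ho hK x y hxy hred hpos
  refine ⟨annular_closed _ dir ho, span_odd p k hp2 hl hM w a hq dir ho hK x y hxy hred hpos, ε, e, hε,
    (red_zero p _).1 h1, fun b dir' ho' => ?_⟩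
  obtain ⟨h3, h4⟩ := h2 b dir' ho'
  exact ⟨annular_closed _ dir' ho', quot_isKnot hl (p ^ k) hpos w a dir hK ho b dir' ho',
    (red_zero p _).1 h3, h4⟩

end Pool.Agent.Results.MP_7bc610_gt.SpanGap
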